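import Pool.Agent.Helper2.LD.Four
import Pool.Agent.Helper88.ONE.OneScale

set_option autoImplicit false

/-!
MP_120218_co: one number controls sums and products; one-scale form.
-/

open Finset
open Pool.Agent.Helper84.SP
open Pool.Agent.Helper80.LL
open Pool.Agent.Helper88.TL
open Pool.Agent.Helper88.ONE

namespace Pool.Agent.Helper2.LD

theorem hsum_add {A : Finset ℤ} {i j : ℕ} {s t : ℤ} (hs : s ∈ hsum A i)
    (ht : t ∈ hsum A j) : s + t ∈ hsum A (i + j) := by
  unfold hsum at hs ht ⊢
  obtain ⟨f, hf, rfl⟩ := mem_image.1 hs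
  obtain ⟨g, hg, rfl⟩ := mem_image.1 ht
  rw [Fintype.mem_piFinset] at hf hg
  refine mem_image.2 ⟨Fin.append f g, ?_, ?_⟩
  · rw [Fintype.mem_piFinset]
    intro l
    refine Fin.addCases (fun a => ?_) (fun b => ?_) l
    · rw [Fin.append_left]
      exact hf a
    · rw [Fin.append_right]
      exact hg b
  · rw [Fin.sum_univ_add]
    simp only [Fin.append_left, Fin.append_right]

/-- the sums of a set of integers pay for the defect of its positive half -/
theorem sumKeyZ {A : Finset ℤ} {A' : Finset ℕ} {e : ℤ} (hne : A'.Nonempty)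
    (hpos : ∀ y ∈ A', 0 < y) (he : e = 1 ∨ e = -1) (hA : ∀ y ∈ A', e * (y : ℤ) ∈ A)
    {ps : List ℕ} (hprime : ∀ q ∈ ps, q.Prime) (hnd : ps.Nodup) {lam : ℝ} (h0 : 0 < lam)
    (h1 : lam ≤ 1) {j : ℕ} (hj : 1 ≤ j) :
    Psi ps A' / A'.card ≤
      4 * W * (Real.log (hsum A (2 * j)).card - Real.log (hsum A j).card) +
        2 * lam * Real.log (hsum A j).card +
        Real.log (576 / lam ^ 2) * ((Q0 (100 / lam) : ℝ) + 1) := by
  have he0 : e ≠ 0 := by
    rcases he with rfl | rfl <;> norm_num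
  have hee : e * e = 1 := by
    rcases he with rfl | rfl <;> norm_num
  obtain ⟨y0, hy0⟩ := hne
  have hAne : A.Nonempty := ⟨_, hA y0 hy0⟩
  have hne : A'.Nonempty := ⟨y0, hy0⟩
  have himg : ∀ i, ((hsum A i).image (fun s => e * s)).card = (hsum A i).card := by
    intro i
    apply card_image_of_injOn
    intro x _ y _ h
    exact mul_left_cancel₀ he0 h
  have hsp : ∀ i, 0 < (hsum A i).card := fun i => card_hsum_pos hAne i
  obtain ⟨X, hX⟩ : ∃ X, X = (hsum A j).image (fun s => e * s) := ⟨_, rfl⟩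
  have hXc : X.card = (hsum A j).card := by rw [hX]; exact himg j
  have hXne : X.Nonempty := card_pos.1 (by rw [hXc]; exact hsp j)
  have hm := mainLL h0 h1 ps hprime A' hne hpos X X hXne hXne
  have hmono : ∀ i i' : ℕ, i ≤ i' → (hsum A i).card ≤ (hsum A i').card := fun i i' h =>
    monotone_nat_of_le_succ (f := fun j => (hsum A j).card)
      (fun j => Top_card_hsum_succ hAne j) h
  have hsub1 : sset al X A' ⊆ (hsum A (j + 1)).image (fun s => e * s) := by
    intro g hg
    unfold sset at hg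
    obtain ⟨z, hz, rfl⟩ := mem_image.1 hg
    obtain ⟨hz1, hz2⟩ := mem_product.1 hz
    rw [hX] at hz1
    obtain ⟨s, hs, hs'⟩ := mem_image.1 hz1
    refine mem_image.2 ⟨_, hsum_succ hs (hA _ hz2), ?_⟩
    rw [← hs']
    show e * (s + e * (z.2 : ℤ)) = e * s + (z.2 : ℤ)
    rw [mul_add, ← mul_assoc, hee, one_mul]
  have hsub2 : sset (fun g : ℤ => g) X X ⊆ (hsum A (2 * j)).image (fun s => e * s) := by
    intro g hg
    unfold sset at hg
    obtain ⟨z, hz, rfl⟩ := mem_image.1 hg
    obtain ⟨hz1, hz2⟩ := mem_product.1 hz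
    rw [hX] at hz1 hz2
    obtain ⟨s, hs, hs'⟩ := mem_image.1 hz1
    obtain ⟨t, ht, ht'⟩ := mem_image.1 hz2
    have h3 := hsum_add hs ht
    rw [← two_mul] at h3
    refine mem_image.2 ⟨_, h3, ?_⟩
    rw [← hs', ← ht']
    ring
  have hp1 : 0 < (sset al X A').card := lt_of_lt_of_le (card_pos.2 hXne) (sset_card_ge hne)
  have hp2 : 0 < (sset (fun g : ℤ => g) X X).card :=
    lt_of_lt_of_le (card_pos.2 hXne) (sset_card_ge hXne)
  have c1 : Real.log (sset al X A').card ≤ Real.log (hsum A (2 * j)).card := by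
    apply Real.log_le_log (by exact_mod_cast hp1)
    have h3 := card_le_card hsub1
    rw [himg] at h3
    exact_mod_cast h3.trans (hmono _ _ (by omega))
  have c2 : Real.log (sset (fun g : ℤ => g) X X).card ≤ Real.log (hsum A (2 * j)).card := by
    apply Real.log_le_log (by exact_mod_cast hp2)
    have h3 := card_le_card hsub2
    rw [himg] at h3
    exact_mod_cast h3
  have k2 := I_le (α := al) hXne hne
  have k3 := I_le (α := fun g : ℤ => g) hXne hXne
  rw [hXc] at hm k2 k3
  have hW : (0 : ℝ) < W := by unfold W; norm_num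
  have hG0 : 0 ≤ Real.log (576 / lam ^ 2) := by
    apply Real.log_nonneg
    rw [le_div_iff₀ (by positivity)]
    nlinarith
  have e1 : W * (I al X A' + I al X A' + dd X X) ≤
      W * (4 * (Real.log (hsum A (2 * j)).card - Real.log (hsum A j).card)) := by
    apply mul_le_mul_of_nonneg_left _ hW.le
    unfold dd I2
    linarith
  have e2 := mul_le_mul_of_nonneg_left (cnt_le hnd (Q0 (100 / lam))) hG0
  linarith

/-- the error term of the small primes -/
theorem scale_err {L L' s S lam : ℝ} (hL2 : 2 < L) (hL1 : L' ≤ L) (hL : L ≤ 2 * L') (hs : 0 < s)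
    (hs1 : s ≤ 1) (hS : L ≤ S) (hS2 : S ≤ 1 / 64000000 * s * Real.log L * L)
    (hlam : lam = s * L' / (8 * S)) :
    Real.log (576 / lam ^ 2) * ((Q0 (100 / lam) : ℝ) + 1) ≤ s * L' / 4 := by
  have hL0 : 0 < L := by linarith
  have hL'0 : 0 < L' := by linarith
  have hSp : 0 < S := by linarith
  obtain ⟨l, hl⟩ : ∃ l : ℝ, l = Real.log L := ⟨_, rfl⟩
  rw [← hl] at hS2
  have hlp : 0 < l := by rw [hl]; exact Real.log_pos (by linarith)
  have hexp : Real.exp l = L := by rw [hl, Real.exp_log hL0]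
  have hlamp : 0 < lam := by rw [hlam]; positivity
  obtain ⟨B, hB⟩ : ∃ B : ℝ, B = 100 / lam := ⟨_, rfl⟩
  have hBp : 0 < B := by rw [hB]; positivity
  have hB2 : B * (s * L') = 800 * S := by
    rw [hB, hlam]
    field_simp
    ring
  -- `s l ≥ 64000000`
  have hsl : 64000000 ≤ s * l := by
    have h1 : L ≤ 1 / 64000000 * (s * l) * L := by linarith
    have h2 : 1 ≤ 1 / 64000000 * (s * l) := by
      by_contra hcon
      push Not at hcon
      have := mul_lt_mul_of_pos_right hcon hL0
      linarith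
    linarith
  -- `B ≤ l / 16`
  have hBl : B ≤ l / 16 := by
    have h1 : B * (s * L') ≤ (l / 16) * (s * L') := by
      rw [hB2]
      have h2 : 800 * (1 / 64000000 * s * l * L) ≤ 800 * (1 / 64000000 * s * l * (2 * L')) := by
        have := mul_le_mul_of_nonneg_left hL (show 0 ≤ s * l by positivity)
        linarith
      have h3 : 0 ≤ s * l * L' := by positivity
      linarith
    exact le_of_mul_le_mul_right h1 (by positivity)
  rw [← hB]
  have h24 : 24 / lam = 24 / 100 * B := by
    rw [hB]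
    field_simp
  have hlog : Real.log (576 / lam ^ 2) ≤ B / 2 := by
    have h2 : (576 : ℝ) / lam ^ 2 = (24 / lam) ^ 2 := by
      rw [div_pow]
      norm_num
    have h3 : Real.log (24 / lam) ≤ 24 / lam - 1 :=
      Real.log_le_sub_one_of_pos (by positivity)
    rw [h2, Real.log_pow]
    push_cast
    linarith
  have hQ : (Q0 B : ℝ) + 1 ≤ 9 * Real.exp (2 * B) := by
    unfold Q0
    push_cast
    have h2 := Nat.ceil_lt_add_one (show 0 ≤ 6 * Real.exp (2 * B) by positivity)
    have h3 : 1 ≤ Real.exp (2 * B) := Real.one_le_exp (by positivity)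
    linarith
  have hE : Real.exp (2 * B) ≤ Real.exp (l / 8) := Real.exp_le_exp.2 (by linarith)
  have hG : Real.log (576 / lam ^ 2) * ((Q0 B : ℝ) + 1) ≤ l / 32 * (9 * Real.exp (l / 8)) := by
    refine mul_le_mul (by linarith) (by linarith) (by positivity) (by positivity)
  refine hG.trans ?_
  -- `9 l exp (l / 8) / 32 ≤ s L' / 4`
  have hq := Real.quadratic_le_exp_of_nonneg (show 0 ≤ l / 2 by positivity)
  have hq2 : l * l ≤ 8 * Real.exp (l / 2) := by nlinarith
  have h5 : l * l * Real.exp (l / 8) ≤ 8 * L := by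
    rw [← hexp]
    calc l * l * Real.exp (l / 8) ≤ 8 * Real.exp (l / 2) * Real.exp (l / 8) :=
          mul_le_mul_of_nonneg_right hq2 (Real.exp_pos _).le
      _ = 8 * Real.exp (l / 2 + l / 8) := by rw [Real.exp_add]; ring
      _ ≤ 8 * Real.exp l := by
          have : Real.exp (l / 2 + l / 8) ≤ Real.exp l := Real.exp_le_exp.2 (by linarith)
          linarith
  have h6 : l * (l / 32 * (9 * Real.exp (l / 8))) ≤ l * (s * L' / 4) := by
    have h7 : 64000000 * L' ≤ s * l * L' := mul_le_mul_of_nonneg_right hsl (by linarith)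
    have e1 : l * (l / 32 * (9 * Real.exp (l / 8))) = 9 / 32 * (l * l * Real.exp (l / 8)) := by
      ring
    have e2 : l * (s * L' / 4) = s * l * L' / 4 := by ring
    rw [e1, e2]
    linarith
  exact le_of_mul_le_mul_left h6 hlp

/-- one number `s` controls the growth of sums and products, at every scale -/
theorem scale : ∃ c C : ℝ, 0 < c ∧ 0 < C ∧ ∀ A : Finset ℤ, 16 ≤ A.card →
    ∃ s : ℝ, 0 ≤ s ∧ s ≤ 1 ∧
      (∀ k : ℕ, 2 ≤ k →
        ((A.card : ℝ) / 4) ^ ((k : ℝ) * (1 - C * s * Real.log k)) ≤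
          ((kprod A k).card : ℝ)) ∧
      (∀ h : ℕ, 1 ≤ h →
        ((A.card : ℝ) / 4) ^ ((h : ℝ) * (1 - C * (1 - s) * Real.log (h / (1 - s)))) ≤
          ((hsum A h).card : ℝ)) ∧
      (∀ j : ℕ, 1 ≤ j →
        ((kprod A j).card : ℝ) * ((A.card : ℝ) / 4) ^ (c * (1 - s)) ≤
          3 * ((kprod A (2 * j)).card : ℝ)) ∧
      (∀ j : ℕ, 1 ≤ j →
        ((hsum A j).card : ℝ) ≤ (A.card : ℝ) ^ (c * s * Real.log (Real.log A.card)) →
        ((hsum A j).card : ℝ) * ((A.card : ℝ) / 4) ^ (c * s) ≤
          ((hsum A (2 * j)).card : ℝ)) := by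
  refine ⟨1 / 64000000, 33, by norm_num, by norm_num, ?_⟩
  intro A hA16
  have hA : A.Nonempty := card_pos.1 (by omega)
  have h0 : (0 : ℤ) ∉ A.erase 0 := by simp
  obtain ⟨A', e, hA'pos, he, hA', hcard⟩ := signed (A.erase 0) h0
  have hcard1 : A.card ≤ (A.erase 0).card + 1 := by
    have := pred_card_le_card_erase (s := A) (a := (0 : ℤ))
    omega
  have hcard2 : A.card ≤ 4 * A'.card := by omega
  have hcard2' : (A.card : ℝ) ≤ 4 * A'.card := by exact_mod_cast hcard2
  have hcard4 : 4 ≤ A'.card := by omega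
  have hA'ne : A'.Nonempty := card_pos.1 (by omega)
  have hA'' : ∀ y ∈ A', e * (y : ℤ) ∈ A := fun y hy => (mem_erase.1 (hA' y hy)).2
  have pA : (0 : ℝ) < A.card := by exact_mod_cast card_pos.2 hA
  have pA' : (0 : ℝ) < A'.card := by exact_mod_cast card_pos.2 hA'ne
  have hA16' : (16 : ℝ) ≤ A.card := by exact_mod_cast hA16
  have hA'le : A'.card ≤ A.card := by
    apply card_le_card_of_injOn (fun y : ℕ => e * (y : ℤ)) (fun y hy => hA'' y hy)
    intro x _ y _ hxy
    have he0 : e ≠ 0 := by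
      rcases he with rfl | rfl <;> norm_num
    exact_mod_cast mul_left_cancel₀ he0 hxy
  obtain ⟨L, hLdef⟩ : ∃ L, L = Real.log A.card := ⟨_, rfl⟩
  obtain ⟨L', hL'def⟩ : ∃ L', L' = Real.log A'.card := ⟨_, rfl⟩
  obtain ⟨Lb, hLb⟩ : ∃ Lb, Lb = Real.log ((A.card : ℝ) / 4) := ⟨_, rfl⟩
  have hLL : L' ≤ L := by
    rw [hLdef, hL'def]
    exact Real.log_le_log pA' (by exact_mod_cast hA'le)
  have hL' : L ≤ L' + Real.log 4 := by
    rw [hLdef, hL'def, ← Real.log_mul pA'.ne' (by norm_num)]
    apply Real.log_le_log pA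
    linarith
  have hLb0 : 0 ≤ Lb := by
    rw [hLb]
    apply Real.log_nonneg
    linarith
  have hLb1 : Lb ≤ L' := by
    rw [hLb, Real.log_div pA.ne' (by norm_num), ← hLdef]
    linarith
  have hL : 4 * Real.log 2 ≤ L := by
    have h16 : 4 * Real.log 2 = Real.log 16 := by
      have : (16 : ℝ) = 2 ^ 4 := by norm_num
      rw [this, Real.log_pow]
      norm_num
    rw [h16, hLdef]
    exact Real.log_le_log (by norm_num) hA16'
  have l2 := Real.log_two_gt_d9
  have l2' := Real.log_two_lt_d9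
  have h4 := Top_log_four
  have hL2 : 2 < L := by linarith
  have hL'1 : 1 < L' := by linarith
  have hL22 : L ≤ 2 * L' := by linarith
  have hlogL : 0 < Real.log L := Real.log_pos (by linarith)
  -- the number `s`
  obtain ⟨ps, hprime, hnd, hdet⟩ := exists_primes hA'pos
  obtain ⟨Φ, hΦ⟩ : ∃ Φ : ℝ, Φ = Psi ps A' / A'.card := ⟨_, rfl⟩
  have hΦ0 : 0 ≤ Φ := by rw [hΦ]; exact div_nonneg (Psi_nonneg ps A') (Nat.cast_nonneg _)
  have hF := Fd_nonneg ps A' hA'ne
  have hFd : Fd ps A' = L' - Φ := by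
    unfold Fd
    rw [← hL'def, ← hΦ]
  rw [hFd] at hF
  obtain ⟨s, hs⟩ : ∃ s : ℝ, s = Φ / L' := ⟨_, rfl⟩
  have hL'0 : 0 < L' := by linarith
  have hsL : s * L' = Φ := by
    rw [hs]
    field_simp
  have hs0 : 0 ≤ s := by rw [hs]; positivity
  have hs1 : s ≤ 1 := by
    rw [hs, div_le_one hL'0]
    linarith
  have t1 : ∀ h, Real.log (it al A' h).card ≤ Real.log (hsum A h).card := by
    intro h
    apply Real.log_le_log
    · exact_mod_cast card_pos.2 (it_nonempty hA'ne h)
    · exact_mod_cast it_al_card he hA'' h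
  have t2 : ∀ k, Real.log (it be A' k).card ≤ Real.log (kprod A k).card := by
    intro k
    apply Real.log_le_log
    · exact_mod_cast card_pos.2 (it_nonempty hA'ne k)
    · exact_mod_cast it_be_card he hA'pos hA'' k
  have o1 : ∀ h, (1 : ℝ) ≤ (hsum A h).card := fun h => by exact_mod_cast card_hsum_pos hA h
  have o2 : ∀ k, (1 : ℝ) ≤ (kprod A k).card := fun k => by exact_mod_cast card_kprod_pos hA k
  have hpb : (0 : ℝ) < (A.card : ℝ) / 4 := by positivity
  refine ⟨s, hs0, hs1, ?_, ?_, ?_, ?_⟩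
  · -- products, nearly full growth
    intro k hk
    apply pow_form hpb hLb hLb0 hLb1 _ (o2 k)
    have hk2 : (2 : ℝ) ≤ k := by exact_mod_cast hk
    have hlk : Real.log 2 ≤ Real.log k := Real.log_le_log (by norm_num) hk2
    have h1 := prod_side hk hA'ne hA'pos ps hdet
    rw [← hL'def, ← hΦ, ← hsL] at h1
    have h2 := t2 k
    have h3 : (2 * Real.log k + 7) * (s * L') ≤ 33 * Real.log k * (s * L') :=
      mul_le_mul_of_nonneg_right (by linarith) (by positivity)
    have h5 := mul_le_mul_of_nonneg_left h3 (show (0 : ℝ) ≤ k by positivity)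
    linarith
  · -- sums, nearly full growth
    intro h hh
    apply pow_form hpb hLb hLb0 hLb1 _ (o1 h)
    have h2 := t1 h
    have h1 := yield_pow (u := 1 - s) (F := L' - Φ) (X := Real.log (it al A' h).card) hA'ne hh
      hL'def hL'1 (by linarith) (by linarith) (by rw [← hsL]; ring) (by
        have h3 := it_card_ge (α := al) hA'ne (fun a _ b _ h => by
          have h3 : (a : ℤ) = b := h
          exact_mod_cast h3) hh
        rw [hL'def]
        exact Real.log_le_log pA' (by exact_mod_cast h3)) (by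
        intro δ hδ0 hδ1
        have h3 := sum_yield_it hprime hA'ne hA'pos hh hδ0 hδ1
        rw [hFd, ← hL'def] at h3
        exact h3)
    linarith
  · -- products, one scale
    intro j hj
    have h1 := oneScale hA'ne hA'pos he hA'' hprime hdet hj
    rw [← hL'def, ← hΦ, ← hsL] at h1
    have pj : (0 : ℝ) < (kprod A j).card := by linarith [o2 j]
    have p2j : (0 : ℝ) < (kprod A (2 * j)).card := by linarith [o2 (2 * j)]
    rw [Real.rpow_def_of_pos hpb, ← hLb]
    have h2 : (1 - s) * Lb ≤ (1 - s) * L' := mul_le_mul_of_nonneg_left hLb1 (by linarith)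
    have h2' : 0 ≤ (1 - s) * L' := mul_nonneg (by linarith) hL'0.le
    have h3 : Real.log (kprod A j).card + Lb * (1 / 64000000 * (1 - s)) ≤
        Real.log 3 + Real.log (kprod A (2 * j)).card := by
      have e1 : L' - s * L' = (1 - s) * L' := by ring
      rw [e1] at h1
      linarith
    have h5 := Real.exp_le_exp.2 h3
    rw [Real.exp_add, Real.exp_add, Real.exp_log pj, Real.exp_log p2j,
      Real.exp_log (by norm_num)] at h5
    exact h5
  · -- sums, one scale
    intro j hj hjle
    have pj : (0 : ℝ) < (hsum A j).card := by linarith [o1 j]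
    have p2j : (0 : ℝ) < (hsum A (2 * j)).card := by linarith [o1 (2 * j)]
    obtain ⟨S, hS⟩ : ∃ S, S = Real.log (hsum A j).card := ⟨_, rfl⟩
    have hSL : L ≤ S := by
      rw [hLdef, hS]
      exact Real.log_le_log pA (by exact_mod_cast Top_card_le_hsum hA hj)
    have hS2 : S ≤ 1 / 64000000 * s * Real.log L * L := by
      have h1 := Real.log_le_log pj hjle
      rw [Real.log_rpow pA, ← hLdef, ← hS] at h1
      exact h1
    have hsp : 0 < s := by
      rcases hs0.lt_or_eq with h | h
      · exact h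
      · rw [← h] at hS2
        simp only [mul_zero, zero_mul] at hS2
        linarith
    obtain ⟨lam, hlam⟩ : ∃ lam : ℝ, lam = s * L' / (8 * S) := ⟨_, rfl⟩
    have hSp : 0 < S := by linarith
    have hlam0 : 0 < lam := by rw [hlam]; positivity
    have hlam1 : lam ≤ 1 := by
      rw [hlam, div_le_one (by positivity)]
      have : s * L' ≤ 1 * L' := mul_le_mul_of_nonneg_right hs1 hL'0.le
      linarith
    have herr := scale_err hL2 hLL hL22 hsp hs1 hSL hS2 hlam
    have h1 := sumKeyZ hA'ne hA'pos he hA'' hprime hnd hlam0 hlam1 hj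
    rw [← hΦ, ← hsL, ← hS] at h1
    have h2 : 2 * lam * S = s * L' / 4 := by
      rw [hlam]
      field_simp
      ring
    rw [h2] at h1
    unfold W at h1
    have h3 : s * Lb ≤ s * L' := mul_le_mul_of_nonneg_left hLb1 hs0
    have h5 : S + Lb * (1 / 64000000 * s) ≤ Real.log (hsum A (2 * j)).card := by
      linarith
    rw [Real.rpow_def_of_pos hpb, ← hLb]
    have h6 := Real.exp_le_exp.2 h5
    rw [Real.exp_add, hS, Real.exp_log pj, Real.exp_log p2j] at h6
    exact h6

end Pool.Agent.Helper2.LD
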