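import Pool.Agent.Helper2.LD.YieldNode
import Pool.Agent.Helper80.LL.Defs

set_option autoImplicit false

/-!
MP_120218_co, dual half of LL: SUM-YIELD. A set of positive integers whose multiplicative defect
`Psi` is nearly maximal has nearly full growth of its iterated sums.
-/

open Finset
open Pool.Agent.Helper84.SP
open Pool.Agent.Helper80.LL

namespace Pool.Agent.Helper2.LD

/-- the complementary defect, normalised -/
noncomputable def Fd (ps : List ℕ) (D : Finset ℕ) : ℝ := Real.log D.card - Psi ps D / D.card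

theorem Fd_split {q : ℕ} {ps : List ℕ} {D D₀ D₁ : Finset ℕ} {η θ : ℝ} (h₀ : D₀.Nonempty)
    (h₁ : D₁.Nonempty) (hsum : (D.card : ℝ) = D₁.card + D₀.card)
    (hη : η = D₁.card / D.card) (hθ : θ = D₀.card / D.card)
    (h : Psi (q :: ps) D = D₀.card * Real.log (D.card / D₀.card) + Psi ps D₀ +
      Psi (q :: ps) D₁) :
    Fd (q :: ps) D = -(η * Real.log η) + θ * Fd ps D₀ + η * Fd (q :: ps) D₁ := by
  have hp1 : (0 : ℝ) < D₁.card := by exact_mod_cast card_pos.2 h₁
  have hp0 : (0 : ℝ) < D₀.card := by exact_mod_cast card_pos.2 h₀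
  have hpD : (0 : ℝ) < D.card := by linarith
  unfold Fd
  rw [h, hη, hθ, Real.log_div hpD.ne' hp0.ne', Real.log_div hp1.ne' hpD.ne']
  field_simp
  rw [hsum]
  ring

/-- SUM-YIELD -/
theorem sum_yield {lam Lam : ℝ} (hl0 : 0 < lam) (hl1 : lam ≤ 1 / 2) (hLam : Lam = -Real.log lam)
    (ps : List ℕ) : (∀ q ∈ ps, q.Prime) → ∀ D : Finset ℕ, D.Nonempty → (∀ y ∈ D, 0 < y) →
      ∀ X : Finset ℤ, X.Nonempty →
        Real.log D.card ≤ I al X D + lam * Real.log X.card + 16 * Lam * Fd ps D := by
  have hLam2 : 69 / 100 ≤ Lam := by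
    have h1 := Real.log_le_log hl0 hl1
    have h2 := Real.log_two_gt_d9
    rw [Real.log_div (by norm_num) (by norm_num), Real.log_one] at h1
    linarith
  induction ps with
  | nil =>
    intro _ D hD _ X hX
    have h1 := I_nonneg al X D
    have h2 : 0 ≤ lam * Real.log X.card := mul_nonneg hl0.le (Real.log_natCast_nonneg _)
    have h3 : 0 ≤ Real.log D.card := Real.log_natCast_nonneg _
    have h4 : Fd [] D = Real.log D.card := by
      unfold Fd Psi
      rw [zero_div, sub_zero]
    rw [h4]
    have h5 : 1 * Real.log D.card ≤ 16 * Lam * Real.log D.card :=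
      mul_le_mul_of_nonneg_right (by linarith) h3
    linarith
  | cons q ps ihp =>
    intro hps
    have hqp : q.Prime := hps q List.mem_cons_self
    have hps' : ∀ p ∈ ps, p.Prime := fun p hp => hps p (List.mem_cons_of_mem _ hp)
    intro D
    induction D using Finset.strongInduction with
    | H D ih =>
    intro hDne hpos X hX
    obtain ⟨ym, hym, hmin⟩ := exists_min_image D (fun y => y.factorization q) hDne
    set l := ym.factorization q with hl
    by_cases hconst : ∀ y ∈ D, y.factorization q = l
    · -- the valuation is constant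
      have h1 := ihp hps' D hDne hpos X hX
      have h2 : Fd (q :: ps) D = Fd ps D := by
        unfold Fd
        rw [Psi_const hDne hconst]
      rw [h2]
      exact h1
    push Not at hconst
    obtain ⟨y₁, hy₁, hne₁⟩ := hconst
    set D₀ := D.filter (fun y => y.factorization q = l) with hD₀
    set D₁ := D.filter (fun y => l < y.factorization q) with hD₁
    have hD₀v : ∀ y ∈ D₀, y.factorization q = l := fun y hy => (mem_filter.1 hy).2
    have hD₁v : ∀ y ∈ D₁, l < y.factorization q := fun y hy => (mem_filter.1 hy).2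
    have hdis : Disjoint D₁ D₀ := by
      rw [disjoint_left]
      intro y hy1 hy0
      have := hD₀v y hy0
      have := hD₁v y hy1
      omega
    have hun : D = D₁ ∪ D₀ := by
      ext y
      rw [mem_union, hD₁, hD₀, mem_filter, mem_filter]
      constructor
      · intro hy
        rcases (hmin y hy).lt_or_eq with h | h
        · exact Or.inl ⟨hy, h⟩
        · exact Or.inr ⟨hy, h.symm⟩
      · rintro (h | h) <;> exact h.1
    have h₀ : D₀.Nonempty := ⟨ym, mem_filter.2 ⟨hym, rfl⟩⟩
    have h₁ : D₁.Nonempty := ⟨y₁, mem_filter.2 ⟨hy₁, lt_of_le_of_ne (hmin y₁ hy₁) (Ne.symm hne₁)⟩⟩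
    have hsub0 : D₀ ⊆ D := filter_subset _ _
    have hsub1 : D₁ ⊆ D := filter_subset _ _
    have hss1 : D₁ ⊂ D := by
      refine ⟨hsub1, fun hsub => ?_⟩
      have := hD₁v ym (hsub hym)
      omega
    have hp1 : (0 : ℝ) < D₁.card := by exact_mod_cast card_pos.2 h₁
    have hp0 : (0 : ℝ) < D₀.card := by exact_mod_cast card_pos.2 h₀
    have hsum : (D.card : ℝ) = D₁.card + D₀.card := by
      conv_lhs => rw [hun]
      rw [card_union_of_disjoint hdis]
      push_cast
      ring
    have hpD : (0 : ℝ) < D.card := by linarith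
    have hA1 : ∀ y ∈ D₁, piA q l (al y) = 0 := by
      intro y hy
      rw [piA_al, ZMod.natCast_eq_zero_iff]
      exact (hqp.pow_dvd_iff_le_factorization (hpos y (hsub1 hy)).ne').2 (hD₁v y hy)
    have hA0 : ∀ y ∈ D₀, piA q l (al y) ≠ 0 := by
      intro y hy h
      rw [piA_al, ZMod.natCast_eq_zero_iff] at h
      have h3 := (hqp.pow_dvd_iff_le_factorization (hpos y (hsub0 hy)).ne').1 h
      rw [hD₀v y hy] at h3
      omega
    obtain ⟨η, hη⟩ : ∃ η : ℝ, η = D₁.card / D.card := ⟨_, rfl⟩
    obtain ⟨θ, hθ⟩ : ∃ θ : ℝ, θ = D₀.card / D.card := ⟨_, rfl⟩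
    have hη0 : 0 < η := by rw [hη]; exact div_pos hp1 hpD
    have hθ0 : 0 < θ := by rw [hθ]; exact div_pos hp0 hpD
    have hs : η + θ = 1 := by rw [hη, hθ, ← add_div, ← hsum, div_self hpD.ne']
    have hlog : Real.log D.card = η * Real.log D₁.card + θ * Real.log D₀.card + hh η θ := by
      have e1 : Real.log η = Real.log D₁.card - Real.log D.card := by
        rw [hη, Real.log_div hp1.ne' hpD.ne']
      have e0 : Real.log θ = Real.log D₀.card - Real.log D.card := by
        rw [hθ, Real.log_div hp0.ne' hpD.ne']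
      unfold hh
      rw [e1, e0]
      have : η = 1 - θ := by linarith
      rw [this]
      ring
    have hF := Fd_split (q := q) (ps := ps) h₀ h₁ hsum hη hθ (Psi_split hmin hD₀ hD₁ h₀)
    have hnode := yield_node (piA q l) (α := al) hX hdis hun h₁ h₀ hA1 hA0 hl0 hl1 hLam hη hθ
    have i0 := ihp hps' D₀ h₀ (fun y hy => hpos y (hsub0 hy)) X hX
    have i1 : Real.log D₁.card - 16 * Lam * Fd (q :: ps) D₁ - lam * Real.log X.card +
        lam * (Ent (piA q l) X / X.card) ≤ I al X D₁ := by
      apply classes_I (α := al) (piA q l) hX h₁ hA1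
        (w := Real.log D₁.card - 16 * Lam * Fd (q :: ps) D₁) (lam := lam)
      intro X' _ hne
      have := ih D₁ hss1 h₁ (fun y hy => hpos y (hsub1 hy)) X' hne
      linarith
    have m0 := mul_le_mul_of_nonneg_left i0 hθ0.le
    have m1 := mul_le_mul_of_nonneg_left i1 hη0.le
    rw [hlog, hF]
    have e1 : lam * Real.log X.card = η * (lam * Real.log X.card) +
        θ * (lam * Real.log X.card) := by
      rw [← add_mul, hs, one_mul]
    rw [e1]
    linarith

/-- the number of elements of an iterated sumset is at most `|A| ^ j` -/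
theorem it_card_le {ι G : Type*} [AddCommGroup G] [DecidableEq G] (α : ι → G) (A : Finset ι)
    (j : ℕ) : (it α A j).card ≤ A.card ^ j := by
  induction j with
  | zero => simp [it]
  | succ j ih =>
    show (sset α (it α A j) A).card ≤ _
    unfold sset
    refine card_image_le.trans ?_
    rw [card_product, pow_succ]
    exact Nat.mul_le_mul_right _ ih

/-- SUM-YIELD for the iterated sumset -/
theorem sum_yield_it {ps : List ℕ} (hps : ∀ q ∈ ps, q.Prime) {A : Finset ℕ} (hA : A.Nonempty)
    (hpos : ∀ y ∈ A, 0 < y) {h : ℕ} (hh : 1 ≤ h) {δ : ℝ} (hδ0 : 0 < δ) (hδ1 : δ ≤ 1 / 2) :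
    h * Real.log A.card * (1 - δ) - 16 * h * Real.log (h / δ) * Fd ps A ≤
      Real.log (it al A h).card := by
  have hhp : (0 : ℝ) < h := by exact_mod_cast hh
  have hh1 : (1 : ℝ) ≤ h := by exact_mod_cast hh
  have hL : 0 ≤ Real.log A.card := Real.log_natCast_nonneg _
  have hlam : δ / h ≤ 1 / 2 := by
    rw [div_le_iff₀ hhp]
    linarith
  have hLam : Real.log (h / δ) = -Real.log (δ / h) := by
    rw [← Real.log_inv, inv_div]
  have hstep : ∀ j ∈ range h, Real.log A.card * (1 - δ) - 16 * Real.log (h / δ) * Fd ps A ≤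
      Real.log (it al A (j + 1)).card - Real.log (it al A j).card := by
    intro j hj
    have h1 := sum_yield (div_pos hδ0 hhp) hlam hLam ps hps A hA hpos (it al A j)
      (it_nonempty hA j)
    have h2 := I_le (α := al) (it_nonempty (α := al) hA j) hA
    have h3 : Real.log (it al A j).card ≤ h * Real.log A.card := by
      have h4 : Real.log (it al A j).card ≤ Real.log ((A.card : ℝ) ^ j) := by
        apply Real.log_le_log
        · exact_mod_cast card_pos.2 (it_nonempty hA j)
        · exact_mod_cast it_card_le al A j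
      rw [Real.log_pow] at h4
      refine h4.trans ?_
      apply mul_le_mul_of_nonneg_right _ hL
      exact_mod_cast (mem_range.1 hj).le
    have h4 : δ / h * Real.log (it al A j).card ≤ δ * Real.log A.card := by
      calc δ / h * Real.log (it al A j).card ≤ δ / h * (h * Real.log A.card) :=
            mul_le_mul_of_nonneg_left h3 (div_pos hδ0 hhp).le
        _ = _ := by field_simp
    have h5 : it al A (j + 1) = sset al (it al A j) A := rfl
    rw [h5]
    linarith
  have hsum := sum_le_sum hstep
  rw [sum_const, card_range, nsmul_eq_mul, sum_range_sub (fun j => Real.log (it al A j).card)]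
    at hsum
  have h0 : Real.log (it al A 0).card = 0 := by simp [it]
  rw [h0, sub_zero] at hsum
  refine le_trans (le_of_eq ?_) hsum
  ring

end Pool.Agent.Helper2.LD
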