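import Pool.Agent.Helper24.ES.Node1

set_option autoImplicit false

/-!
MP_120218_co, dual half of LL: the node lemma of the inequality SUM-YIELD.
-/

open Finset
open Pool.Agent.Helper84.SP
open Pool.Agent.Helper24.ES

namespace Pool.Agent.Helper2.LD

/-- `θ log (1/θ) ≤ λ / 4` for `θ ≤ λ ^ 7` -/
theorem num_a {lam Lam θ : ℝ} (hl0 : 0 < lam) (hl1 : lam ≤ 1 / 2) (hLam : Lam = -Real.log lam)
    (hθ0 : 0 < θ) (hθ : Real.log θ ≤ -(7 * Lam)) : -(θ * Real.log θ) ≤ lam / 4 := by
  obtain ⟨s, hs⟩ : ∃ s : ℝ, s = -Real.log θ := ⟨_, rfl⟩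
  have hLam0 : 0 ≤ Lam := by
    rw [hLam]
    have := Real.log_nonpos hl0.le (by linarith)
    linarith
  have hs0 : 7 * Lam ≤ s := by linarith
  have hs1 : 0 ≤ s := by linarith
  have hθe : θ = Real.exp (-s) := by rw [hs, neg_neg, Real.exp_log hθ0]
  have h1 : s ≤ Real.exp (s / 2) := by
    have h2 := Real.quadratic_le_exp_of_nonneg (show 0 ≤ s / 2 by linarith)
    nlinarith [sq_nonneg (s - 2)]
  have h2 : -(θ * Real.log θ) = s * Real.exp (-s) := by
    rw [hs, neg_neg, Real.exp_log hθ0]; ring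
  have h3 : s * Real.exp (-s) ≤ Real.exp (s / 2) * Real.exp (-s) :=
    mul_le_mul_of_nonneg_right h1 (Real.exp_pos _).le
  have h4 : Real.exp (s / 2) * Real.exp (-s) ≤ lam ^ 3 := by
    rw [← Real.exp_add]
    have h5 : lam ^ 3 = Real.exp (-(3 * Lam)) := by
      have h6 : lam = Real.exp (-Lam) := by rw [hLam, neg_neg, Real.exp_log hl0]
      rw [h6, ← Real.exp_nat_mul]
      congr 1
      push_cast
      ring
    rw [h5]
    apply Real.exp_le_exp.2
    linarith
  have h5 : lam ^ 3 ≤ lam / 4 := by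
    have h6 : lam ^ 2 ≤ 1 / 4 := by nlinarith
    nlinarith
  rw [h2]
  linarith

theorem num_b {η θ ρ τ : ℝ} (hη : 0 < η) (hθ : 0 < θ) (hs : η + θ = 1) (hθ2 : θ ≤ 1 / 2)
    (hρ0 : 0 ≤ ρ) (hρ : ρ ≤ θ) (hτ0 : 0 ≤ τ) (hτ : τ ≤ ρ) :
    -(θ * Real.log θ) - 3 * θ ≤
      η * ((1 - ρ) * Real.log (η / η) + ρ * Real.log ((1 / 2) / η)) +
        θ * (τ * Real.log ((1 - η) / θ) + (1 - τ) * Real.log ((1 - 1 / 2) / θ)) := by
  have e1 : 1 - η = θ := by linarith
  rw [div_self hη.ne', e1, div_self hθ.ne', Real.log_one, mul_zero, mul_zero, zero_add, zero_add,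
    show (1 : ℝ) - 1 / 2 = 1 / 2 by norm_num, Real.log_div (by norm_num) hη.ne',
    Real.log_div (by norm_num) hθ.ne', Real.log_div (by norm_num) (by norm_num), Real.log_one]
  have hl2 : Real.log 2 ≤ 7 / 10 := by
    have := Real.log_two_lt_d9
    linarith
  have hl20 : 0 < Real.log 2 := Real.log_pos (by norm_num)
  have hη1 : Real.log η ≤ 0 := Real.log_nonpos hη.le (by linarith)
  have hθ1 : Real.log θ ≤ -Real.log 2 := by
    have := Real.log_le_log hθ hθ2
    rw [Real.log_div (by norm_num) (by norm_num), Real.log_one] at this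
    linarith
  -- first part
  have p1 : -(θ * (7 / 10)) ≤ η * (ρ * (0 - Real.log 2 - Real.log η)) := by
    have h1 : -(Real.log 2) ≤ 0 - Real.log 2 - Real.log η := by linarith
    have h2 : ρ * (-(Real.log 2)) ≤ ρ * (0 - Real.log 2 - Real.log η) :=
      mul_le_mul_of_nonneg_left h1 hρ0
    have h3 := mul_le_mul_of_nonneg_left h2 hη.le
    have h4 : η * (ρ * Real.log 2) ≤ 1 * (θ * (7 / 10)) := by
      apply mul_le_mul (by linarith) _ (by positivity) (by norm_num)
      exact mul_le_mul hρ hl2 hl20.le hθ.le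
    linarith
  -- second part
  have p2 : -(θ * Real.log θ) - (7 / 10) * θ - θ ≤
      θ * ((1 - τ) * (0 - Real.log 2 - Real.log θ)) := by
    have h1 : 0 ≤ 0 - Real.log 2 - Real.log θ := by linarith
    have h2 : τ * (0 - Real.log 2 - Real.log θ) ≤ 1 := by
      have h3 : τ * (0 - Real.log 2 - Real.log θ) ≤ θ * (-Real.log θ) :=
        mul_le_mul (hτ.trans hρ) (by linarith) h1 hθ.le
      have h4 := Real.one_sub_inv_le_log_of_pos hθ
      have h5 := mul_le_mul_of_nonneg_left h4 hθ.le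
      have h6 : θ * (1 - θ⁻¹) = θ - 1 := by field_simp
      linarith
    have h3 : θ * (τ * (0 - Real.log 2 - Real.log θ)) ≤ θ * 1 :=
      mul_le_mul_of_nonneg_left h2 hθ.le
    have h4 : θ * Real.log 2 ≤ θ * (7 / 10) := mul_le_mul_of_nonneg_left hl2 hθ.le
    linarith
  linarith

theorem num_c {η θ ρ τ : ℝ} (hη : 0 < η) (hθ : 0 < θ) (hs : η + θ = 1)
    (hρ : θ < ρ) (hρ2 : ρ < 1 / 2) (hτ : τ ≤ ρ) :
    -(θ * Real.log ρ) - 11 / 5 * θ ≤
      η * ((1 - ρ) * Real.log (η / η) + ρ * Real.log ((ρ / (θ + ρ)) / η)) +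
        θ * (τ * Real.log ((1 - η) / θ) + (1 - τ) * Real.log ((1 - ρ / (θ + ρ)) / θ)) := by
  have e1 : 1 - η = θ := by linarith
  have hρ0 : 0 < ρ := hθ.trans hρ
  have hsp : 0 < θ + ρ := by linarith
  have e2 : (1 - ρ / (θ + ρ)) / θ = 1 / (θ + ρ) := by
    field_simp
    ring
  rw [div_self hη.ne', e1, div_self hθ.ne', Real.log_one, mul_zero, mul_zero, zero_add, zero_add,
    e2]
  have hl2 : Real.log 2 ≤ 7 / 10 := by
    have := Real.log_two_lt_d9
    linarith
  have hl20 : 0 < Real.log 2 := Real.log_pos (by norm_num)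
  -- first part
  have p1 : -θ ≤ η * (ρ * Real.log ((ρ / (θ + ρ)) / η)) := by
    have h1 : -(θ / ρ) ≤ Real.log ((ρ / (θ + ρ)) / η) := by
      have h2 := Real.one_sub_inv_le_log_of_pos (show 0 < ρ / (θ + ρ) by positivity)
      have h3 : (ρ / (θ + ρ))⁻¹ = 1 + θ / ρ := by
        field_simp
        ring
      rw [h3] at h2
      have h4 : Real.log (ρ / (θ + ρ)) ≤ Real.log ((ρ / (θ + ρ)) / η) := by
        apply Real.log_le_log (by positivity)
        rw [le_div_iff₀ hη]
        apply mul_le_of_le_one_right (by positivity) (by linarith)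
      linarith
    have h2 : ρ * (-(θ / ρ)) ≤ ρ * Real.log ((ρ / (θ + ρ)) / η) :=
      mul_le_mul_of_nonneg_left h1 hρ0.le
    have h3 : ρ * (-(θ / ρ)) = -θ := by field_simp
    rw [h3] at h2
    have h4 := mul_le_mul_of_nonneg_left h2 hη.le
    have h5 : η * θ ≤ 1 * θ := mul_le_mul_of_nonneg_right (by linarith) hθ.le
    linarith
  -- second part
  have hlr : Real.log (1 / (θ + ρ)) ≥ -Real.log 2 - Real.log ρ := by
    have h1 : 1 / (2 * ρ) ≤ 1 / (θ + ρ) := by
      apply one_div_le_one_div_of_le hsp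
      linarith
    have h2 := Real.log_le_log (by positivity) h1
    rw [Real.log_div (by norm_num) (by positivity), Real.log_one,
      Real.log_mul (by norm_num) hρ0.ne'] at h2
    linarith
  have hnn : 0 ≤ -Real.log 2 - Real.log ρ := by
    have := Real.log_le_log hρ0 hρ2.le
    rw [Real.log_div (by norm_num) (by norm_num), Real.log_one] at this
    linarith
  have p2 : -(θ * Real.log ρ) - (7 / 10) * θ - (1 / 2) * θ ≤
      θ * ((1 - τ) * Real.log (1 / (θ + ρ))) := by
    have h1 : (1 - ρ) * (-Real.log 2 - Real.log ρ) ≤ (1 - τ) * Real.log (1 / (θ + ρ)) :=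
      mul_le_mul (by linarith) hlr hnn (by linarith)
    have h2 : ρ * (-Real.log 2 - Real.log ρ) ≤ 1 / 2 := by
      have h3 := Real.log_le_sub_one_of_pos (show 0 < 1 / (2 * ρ) by positivity)
      rw [Real.log_div (by norm_num) (by positivity), Real.log_one,
        Real.log_mul (by norm_num) hρ0.ne'] at h3
      have h4 := mul_le_mul_of_nonneg_left h3 hρ0.le
      have h5 : ρ * (1 / (2 * ρ) - 1) = 1 / 2 - ρ := by field_simp
      rw [h5] at h4
      linarith
    have h3 := mul_le_mul_of_nonneg_left h1 hθ.le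
    have h4 : θ * (ρ * (-Real.log 2 - Real.log ρ)) ≤ θ * (1 / 2) :=
      mul_le_mul_of_nonneg_left h2 hθ.le
    have h5 : θ * Real.log 2 ≤ θ * (7 / 10) := mul_le_mul_of_nonneg_left hl2 hθ.le
    linarith
  linarith

variable {ι G Q : Type*} [AddCommGroup G] [DecidableEq G] [AddCommGroup Q] [DecidableEq Q]

/-- the node lemma of SUM-YIELD -/
theorem yield_node [DecidableEq ι] (π : G →+ Q) {α : ι → G} {X : Finset G} {D D₁ D₀ : Finset ι}
    (hX : X.Nonempty) (hdis : Disjoint D₁ D₀) (hD : D = D₁ ∪ D₀) (h₁ : D₁.Nonempty)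
    (h₀ : D₀.Nonempty) {a : Q} (ha1 : ∀ y ∈ D₁, π (α y) = a) (ha0 : ∀ y ∈ D₀, π (α y) ≠ a)
    {lam Lam η θ : ℝ} (hl0 : 0 < lam) (hl1 : lam ≤ 1 / 2) (hLam : Lam = -Real.log lam)
    (hη : η = D₁.card / D.card) (hθ : θ = D₀.card / D.card) :
    η * I α X D₁ + θ * I α X D₀ + hh η θ ≤
      I α X D + lam * η * (Ent π X / X.card) + 16 * Lam * -(η * Real.log η) := by
  have hp1 : (0 : ℝ) < D₁.card := by exact_mod_cast card_pos.2 h₁
  have hp0 : (0 : ℝ) < D₀.card := by exact_mod_cast card_pos.2 h₀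
  have hXp : (0 : ℝ) < X.card := by exact_mod_cast card_pos.2 hX
  have hsum : (D.card : ℝ) = D₁.card + D₀.card := by
    rw [hD, card_union_of_disjoint hdis]
    push_cast
    ring
  have hpD : (0 : ℝ) < D.card := by linarith
  have hη0 : 0 < η := by rw [hη]; exact div_pos hp1 hpD
  have hθ0 : 0 < θ := by rw [hθ]; exact div_pos hp0 hpD
  have hs : η + θ = 1 := by rw [hη, hθ, ← add_div, ← hsum, div_self hpD.ne']
  have hl2 : Real.log 2 ≤ 7 / 10 := by
    have := Real.log_two_lt_d9
    linarith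
  have hl2' : 69 / 100 ≤ Real.log 2 := by
    have := Real.log_two_gt_d9
    linarith
  have hLam2 : 69 / 100 ≤ Lam := by
    have := Real.log_le_log hl0 hl1
    rw [Real.log_div (by norm_num) (by norm_num), Real.log_one] at this
    linarith
  obtain ⟨E, hE⟩ : ∃ E : ℝ, E = Ent π X / X.card := ⟨_, rfl⟩
  have hE0 : 0 ≤ E := by rw [hE]; exact div_nonneg (Ent_nonneg _ _) hXp.le
  rw [← hE]
  have hcE : 0 ≤ lam * η * E := by positivity
  have hsup : η * I α X D₁ + θ * I α X D₀ ≤ I α X D := by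
    have := I_super (α := α) hX hdis hD h₁ h₀
    rw [← hη, ← hθ] at this
    exact this
  have hφη : 0 ≤ -(η * Real.log η) := by
    have := mul_nonpos_of_nonneg_of_nonpos hη0.le (Real.log_nonpos hη0.le (by linarith))
    linarith
  have hhd : hh η θ = -(η * Real.log η) + -(θ * Real.log θ) := by
    unfold hh; ring
  rw [hhd]
  have hinv : ∀ x : ℝ, 0 < x → -(x * Real.log x) ≤ 1 - x := by
    intro x hx
    have h4 := Real.one_sub_inv_le_log_of_pos hx
    have h5 := mul_le_mul_of_nonneg_left h4 hx.le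
    have h6 : x * (1 - x⁻¹) = x - 1 := by field_simp
    linarith
  by_cases hθ2 : 1 / 2 ≤ θ
  · -- the part `D₁` is the smaller one
    have h1 : -(θ * Real.log θ) ≤ η := by
      have := hinv θ hθ0
      linarith
    have h2 : η * (69 / 100) ≤ -(η * Real.log η) := by
      have h3 : Real.log η ≤ -(69 / 100) := by
        have := Real.log_le_log hη0 (show η ≤ 1 / 2 by linarith)
        rw [Real.log_div (by norm_num) (by norm_num), Real.log_one] at this
        linarith
      have := mul_le_mul_of_nonneg_left h3 hη0.le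
      linarith
    have h3 : 11 * -(η * Real.log η) ≤ 16 * Lam * -(η * Real.log η) :=
      mul_le_mul_of_nonneg_right (by linarith) hφη
    linarith
  push Not at hθ2
  -- it is enough to prove a simpler inequality
  have hred : (∀ i : ℝ, i = I α X D - (η * I α X D₁ + θ * I α X D₀) →
      -(θ * Real.log θ) ≤ i + lam / 2 * E + 7 * Lam * θ) →
      η * I α X D₁ + θ * I α X D₀ + (-(η * Real.log η) + -(θ * Real.log θ)) ≤
      I α X D + lam * η * E + 16 * Lam * -(η * Real.log η) := by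
    intro h
    have h1 := h _ rfl
    have h2 : θ / 2 ≤ -(η * Real.log η) := by
      have h3 := Real.log_le_sub_one_of_pos hη0
      have h4 := mul_le_mul_of_nonneg_left h3 hη0.le
      nlinarith
    have h3 : (16 * Lam - 1) * (θ / 2) ≤ (16 * Lam - 1) * -(η * Real.log η) :=
      mul_le_mul_of_nonneg_left h2 (by linarith)
    have h4 : 7 * Lam * θ ≤ (16 * Lam - 1) * (θ / 2) := by nlinarith
    have h5 : lam / 2 * E ≤ lam * η * E := by
      apply mul_le_mul_of_nonneg_right _ hE0
      nlinarith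
    linarith
  apply hred
  intro i hi
  have hi0 : 0 ≤ i := by linarith
  have hcL : 0 ≤ 7 * Lam * θ := by positivity
  by_cases hc1 : -(7 * Lam) ≤ Real.log θ
  · have h1 := mul_le_mul_of_nonneg_left hc1 hθ0.le
    have h2 : 0 ≤ lam / 2 * E := by positivity
    linarith
  push Not at hc1
  -- the main class
  obtain ⟨z, hz, hz0⟩ := exists_max π hX
  have hzp : (0 : ℝ) < (cl π X z).card := by exact_mod_cast hz0
  have hoff : ((off π X {z} : ℕ) : ℝ) = X.card - (cl π X z).card := by
    have h1 := card_filter_add_card_filter_not (s := X) (fun x => π x ∈ ({z} : Finset Q))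
    have h2 : X.filter (fun x => π x ∈ ({z} : Finset Q)) = cl π X z := by
      unfold cl
      apply filter_congr
      intro x _
      rw [mem_singleton]
    rw [h2] at h1
    have h3 : ((cl π X z).card : ℝ) + off π X {z} = X.card := by
      unfold off
      exact_mod_cast h1
    linarith
  obtain ⟨ρ, hρ⟩ : ∃ ρ : ℝ, ρ = (off π X {z} : ℕ) / X.card := ⟨_, rfl⟩
  obtain ⟨τ, hτ⟩ : ∃ τ : ℝ, τ = (hits π α X D₀ {z} a : ℕ) / (X.card * D₀.card) := ⟨_, rfl⟩
  have hρ0 : 0 ≤ ρ := by rw [hρ]; positivity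
  have hτ0 : 0 ≤ τ := by rw [hτ]; positivity
  have h1ρ : 1 - ρ = (cl π X z).card / X.card := by
    rw [hρ, hoff]
    field_simp
    ring
  have hρ1 : ρ < 1 := by
    have : 0 < 1 - ρ := by rw [h1ρ]; positivity
    linarith
  have hEρ : -Real.log (1 - ρ) ≤ E := by
    have h1 := Ent_ge hX hz
    have h2 : -Real.log (1 - ρ) = Real.log (X.card / (cl π X z).card) := by
      rw [h1ρ, ← Real.log_inv, inv_div]
    rw [h2, hE, le_div_iff₀ hXp]
    linarith
  have hτρ : τ ≤ ρ := by
    have h1 : hits π α X D₀ {z} a ≤ D₀.card * off π X {z} := by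
      unfold hits
      rw [← smul_eq_mul, ← sum_const]
      apply sum_le_sum
      intro y hy
      unfold off
      apply card_le_card
      apply monotone_filter_right
      intro x _ hx hx'
      rw [mem_singleton] at hx hx'
      rw [hx'] at hx
      have h2 : π (α y) - a = 0 := by
        have h3 : z + (π (α y) - a) = z + 0 := by rw [hx, add_zero]
        exact add_left_cancel h3
      exact ha0 y hy (sub_eq_zero.1 h2)
    have h2 : ((hits π α X D₀ {z} a : ℕ) : ℝ) ≤ D₀.card * (off π X {z} : ℕ) := by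
      exact_mod_cast h1
    rw [hτ, hρ, div_le_div_iff₀ (by positivity) hXp]
    calc ((hits π α X D₀ {z} a : ℕ) : ℝ) * X.card
        ≤ (D₀.card * (off π X {z} : ℕ)) * X.card := mul_le_mul_of_nonneg_right h2 hXp.le
      _ = _ := by ring
  by_cases hc2 : 1 / 2 ≤ ρ
  · -- the class entropy is large
    have h1 : 69 / 100 ≤ E := by
      have h2 : Real.log (1 - ρ) ≤ Real.log (1 / 2) :=
        Real.log_le_log (by linarith) (by linarith)
      rw [Real.log_div (by norm_num) (by norm_num), Real.log_one] at h2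
      linarith
    have h2 := num_a hl0 hl1 hLam hθ0 hc1.le
    have h3 : lam / 2 * (69 / 100) ≤ lam / 2 * E := mul_le_mul_of_nonneg_left h1 (by positivity)
    linarith
  push Not at hc2
  have hη1 : η < 1 := by linarith
  by_cases hc3 : ρ ≤ θ
  · have h1 := I_ind π (α := α) hX hdis hD h₁ h₀ ha1 {z} (q := η) (r := 1 / 2) hη0 hη1
      (by norm_num) (by norm_num) hη hθ hρ hτ
    have h2 := num_b hη0 hθ0 hs hθ2.le hρ0 hc3 hτ0 hτρ
    have h3 : 3 * θ ≤ 7 * Lam * θ := mul_le_mul_of_nonneg_right (by linarith) hθ0.le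
    have h4 : 0 ≤ lam / 2 * E := by positivity
    linarith
  push Not at hc3
  have hρp : 0 < ρ := hθ0.trans hc3
  have h1 := I_ind π (α := α) hX hdis hD h₁ h₀ ha1 {z} (q := η) (r := ρ / (θ + ρ)) hη0 hη1
      (by positivity) (by
        rw [div_lt_one (by positivity)]
        linarith) hη hθ hρ hτ
  have h2 := num_c hη0 hθ0 hs hc3 hc2 hτρ
  have h3 : ρ ≤ E := by
    have h4 := Real.log_le_sub_one_of_pos (show 0 < 1 - ρ by linarith)
    linarith
  -- `log x + 11/5 ≤ (λ/2) x + 7 Λ` with `x = ρ/θ`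
  have h4 : Real.log (ρ / θ) + 11 / 5 ≤ lam / 2 * (ρ / θ) + 7 * Lam := by
    have h5 := Real.log_le_sub_one_of_pos (show 0 < lam / 2 * (ρ / θ) by positivity)
    rw [Real.log_mul (by positivity) (by positivity), Real.log_div hl0.ne' (by norm_num)] at h5
    linarith
  rw [Real.log_div hρp.ne' hθ0.ne'] at h4
  have h5 := mul_le_mul_of_nonneg_left h4 hθ0.le
  have h6 : θ * (lam / 2 * (ρ / θ) + 7 * Lam) = lam / 2 * ρ + 7 * Lam * θ := by
    field_simp
  rw [h6] at h5
  have h7 : lam / 2 * ρ ≤ lam / 2 * E := mul_le_mul_of_nonneg_left h3 (by positivity)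
  linarith

end Pool.Agent.Helper2.LD
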